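import Pool.Agent.helper7.FI2.SpecK

/-!
# Project fi2, row KKI: commuting pairs and conjugacy classes of `T / C`
-/

set_option autoImplicit false

namespace Pool.Agent.FI2

open Pool.Agent.helper58.DC Pool.Agent.DI Pool.Agent.GR Pool.Agent.OB Pool.Agent.DR Pool.Agent.FI

theorem KKI_sum {T : Type} [Group T] [Fintype T] (N : Subgroup T) [Fintype N] [Fintype (T ⧸ N)] (F : T ⧸ N → ℕ) :
    ∑ s : T, F (s : T ⧸ N) = Fintype.card N * ∑ q, F q := by
  have h1 : ∀ s : T, (s : T ⧸ N) = (Subgroup.groupEquivQuotientProdSubgroup (s := N) s).1 := fun s => rfl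
  simp only [h1]
  rw [Equiv.sum_comp (Subgroup.groupEquivQuotientProdSubgroup (s := N)) (fun p : (T ⧸ N) × N => F p.1), Fintype.sum_prod_type,
    Finset.mul_sum]
  refine Finset.sum_congr rfl fun q _ => ?_
  simp

theorem KKI : KKI_stmt := by
  intro Γ _ _ C T hCT hT
  classical
  have : Fintype Γ := Fintype.ofFinite Γ
  have hN : (C.subgroupOf T).Normal := Subgroup.normal_subgroupOf_of_le_normalizer hT
  set N : Subgroup T := C.subgroupOf T with hNdef
  have : Fintype T := Fintype.ofFinite T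
  have : Fintype N := Fintype.ofFinite N
  have : Fintype (T ⧸ N) := Fintype.ofFinite _
  have hcard : Fintype.card N = Nat.card C := by
    rw [← Nat.card_eq_fintype_card]
    exact Nat.card_congr (Subgroup.subgroupOfEquivOfLe hCT).toEquiv
  have hidx : C.relIndex T = Nat.card (T ⧸ N) := rfl
  have hcomm : ∀ s t : T, Commute (s : T ⧸ N) (t : T ⧸ N) ↔ (s : Γ) * t * (s : Γ)⁻¹ * (t : Γ)⁻¹ ∈ C := by
    intro s t
    rw [← commutatorElement_eq_one_iff_commute, commutatorElement_def]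
    have h1 : ((s : T ⧸ N) * (t : T ⧸ N) * (s : T ⧸ N)⁻¹ * (t : T ⧸ N)⁻¹) = ((s * t * s⁻¹ * t⁻¹ : T) : T ⧸ N) := rfl
    rw [h1, QuotientGroup.eq_one_iff, hNdef, Subgroup.mem_subgroupOf]
    rfl
  have hset : {x : Γ × Γ | x.1 ∈ T ∧ x.2 ∈ T ∧ x.1 * x.2 * x.1⁻¹ * x.2⁻¹ ∈ C} =
      (Prod.map (fun s : T => (s : Γ)) (fun s : T => (s : Γ))) '' {p : T × T | Commute (p.1 : T ⧸ N) (p.2 : T ⧸ N)} := by
    ext ⟨a, b⟩
    constructor
    · rintro ⟨ha, hb, hab⟩
      exact ⟨(⟨a, ha⟩, ⟨b, hb⟩), (hcomm ⟨a, ha⟩ ⟨b, hb⟩).2 hab, rfl⟩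
    · rintro ⟨⟨s, t⟩, hst, h⟩
      obtain ⟨rfl, rfl⟩ := Prod.mk.inj h
      exact ⟨s.2, t.2, (hcomm s t).1 hst⟩
  have hn : nP C T = ∑ s : T, ∑ t : T, if Commute (s : T ⧸ N) (t : T ⧸ N) then 1 else 0 := by
    unfold nP
    rw [hset, Set.ncard_image_of_injective _ (Prod.map_injective.2 ⟨Subtype.val_injective, Subtype.val_injective⟩),
      Set.ncard_eq_toFinset_card', Set.toFinset_setOf, Finset.card_filter, Fintype.sum_prod_type]
  have hk := card_comm_eq_card_conjClasses_mul_card (T ⧸ N)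
  have hQ : ∑ q : T ⧸ N, ∑ r : T ⧸ N, (if Commute q r then 1 else 0) = Nat.card (ConjClasses (T ⧸ N)) * Nat.card (T ⧸ N) := by
    rw [← hk, Nat.card_eq_fintype_card, Fintype.card_subtype, Finset.card_filter, Fintype.sum_prod_type]
  refine ⟨Nat.card (ConjClasses (T ⧸ N)), ?_, ?_, ?_⟩
  · have : Nonempty (ConjClasses (T ⧸ N)) := ⟨ConjClasses.mk 1⟩
    have : Finite (ConjClasses (T ⧸ N)) := Finite.of_surjective _ ConjClasses.mk_surjective
    exact Nat.card_pos
  · rw [hidx]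
    exact Nat.card_le_card_of_surjective _ ConjClasses.mk_surjective
  · rw [hn, hidx, mul_comm (Nat.card (T ⧸ N)), ← hQ, ← hcard]
    have e1 : ∀ s : T, (∑ t : T, if Commute (s : T ⧸ N) (t : T ⧸ N) then 1 else 0) =
        (fun q : T ⧸ N => Fintype.card N * ∑ r : T ⧸ N, if Commute q r then 1 else 0) (s : T ⧸ N) := by
      intro s
      exact KKI_sum N (fun r => if Commute (s : T ⧸ N) r then 1 else 0)
    rw [Finset.sum_congr rfl fun s _ => e1 s, KKI_sum N (fun q : T ⧸ N => Fintype.card N * ∑ r : T ⧸ N, if Commute q r then 1 else 0),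
      ← Finset.mul_sum]
    ring

end Pool.Agent.FI2
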